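import Pool.Agent.E8helper11.GS.Stm2

set_option autoImplicit false

/-!
# Few hits by the terms with a large index, fixed `δ`
-/

open Filter Topology
open scoped Classical

namespace Pool.Agent.E8helper71.GS

open N0ef6d136 Pool.Agent.E8helper11.GS

theorem lam_nonneg (m : ℕ → ℕ) (k : ℕ) : 0 ≤ lam m k := by
  unfold lam
  positivity

theorem prod_bound {m u : ℕ → ℕ} {B : ℕ → Finset ℕ} (hmono : StrictMono u) {κ : ℕ → ℕ}
    (hκ : ∀ i, u i ∈ B (κ i)) (hC : ∀ i, u i < 4 ^ (κ i + 1)) (hPos : Pos m u) (hPot : Pot m B)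
    {j a : ℕ} (hj : 1 ≤ j) (ha : a < 4 ^ j) (H : Finset ℕ)
    (hH : ∀ i ∈ H, j ≤ i ^ 2 ∧ Hit j a (u i)) :
    ∏ i ∈ H, (1 + lam m (κ i)) ≤ 15 * (4 : ℝ) ^ j * (j : ℝ) ^ 2 := by
  refine le_trans ?_ (hPot j a (H.sup κ + 1) hj ha)
  rw [← Finset.prod_fiberwise_of_maps_to (s := H) (t := Finset.range (H.sup κ + 1)) (g := κ)
    (f := fun i => 1 + lam m (κ i))
    (fun i hi => Finset.mem_range.2 (Nat.lt_succ_of_le (Finset.le_sup (f := κ) hi)))]
  refine Finset.prod_le_prod (fun k _ => Finset.prod_nonneg fun i _ => ?_) fun k _ => ?_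
  · have := lam_nonneg m (κ i)
    linarith
  have h1 : ∏ i ∈ H with κ i = k, (1 + lam m (κ i)) =
      (1 + lam m k) ^ (H.filter (fun i => κ i = k)).card := by
    rw [← Finset.prod_const]
    refine Finset.prod_congr rfl fun i hi => ?_
    rw [(Finset.mem_filter.1 hi).2]
  rw [h1]
  split_ifs with hif
  · refine pow_le_pow_right₀ (by have := lam_nonneg m k; linarith) ?_
    refine Finset.card_le_card_of_injOn u ?_ (hmono.injective.injOn)
    intro i hi
    have hi' := Finset.mem_filter.1 (Finset.mem_coe.1 hi)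
    refine Finset.mem_coe.2 (Finset.mem_filter.2 ⟨?_, (hH i hi'.1).2⟩)
    rw [← hi'.2]
    exact hκ i
  · have h2 : H.filter (fun i => κ i = k) = ∅ := by
      refine Finset.filter_eq_empty_iff.2 fun i hi hik => hif ?_
      have h3 : i < Ms m (k + 1) := by
        rw [← hik]
        exact (hPos i (κ i + 1)).1 (hC i)
      exact lt_of_le_of_lt (hH i hi).1 (Nat.pow_lt_pow_left h3 two_ne_zero)
    rw [h2, Finset.card_empty, pow_zero]

theorem t_HITSd : S_HITSd := by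
  intro hCNT hREG m u B δ hδ hδ1 hmono h2 hB1 huB hPos hLo hPot hlam hT
  choose κ hκ using huB
  have hC : ∀ i, u i < 4 ^ (κ i + 1) := by
    intro i
    have := hB1 _ (hκ i)
    unfold Cb at this
    exact (Finset.mem_Ico.1 (Finset.mem_filter.1 this).1).2
  obtain ⟨k0, hk0⟩ := eventually_atTop.1 hlam
  have e1 : ∀ᶠ j : ℕ in atTop, (15 : ℝ) * (j : ℝ) ^ 2 ≤ (4 : ℝ) ^ (δ * j) := by
    have hr : 1 < (4 : ℝ) ^ δ := Real.one_lt_rpow (by norm_num) hδ
    have h1 := (isLittleO_pow_const_const_pow_of_one_lt (R := ℝ) 2 hr).def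
      (c := 1 / 15) (by norm_num)
    filter_upwards [h1] with j hj
    rw [Real.norm_of_nonneg (by positivity), Real.norm_of_nonneg (by positivity)] at hj
    rw [Real.rpow_mul_natCast (by norm_num)]
    linarith
  have e3 : ∀ᶠ j : ℕ in atTop, (1 + 11 * δ) / δ ≤ (j : ℝ) :=
    tendsto_natCast_atTop_atTop.eventually_ge_atTop _
  filter_upwards [e1, eventually_gt_atTop ((4 ^ k0) ^ 2), e3, hT ((1 + 11 * δ) / (9 * δ)),
    eventually_ge_atTop 1] with j he1 he2 he3 he4 hj x hx1 hx2 a ha H hH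
  have hj' : (1 : ℝ) ≤ j := by exact_mod_cast hj
  have hL : 0 < Real.log 4 := Real.log_pos (by norm_num)
  have hprod := prod_bound hmono hκ hC hPos hPot hj ha H hH
  have hk : ∀ i ∈ H, k0 ≤ κ i := by
    intro i hi
    by_contra hlt
    have h3 : u i < 4 ^ k0 := lt_of_lt_of_le (hC i) (Nat.pow_le_pow_right (by norm_num) (by omega))
    have h4 : i < 4 ^ k0 := lt_of_le_of_lt (hmono.id_le i) h3
    have h5 := Nat.pow_lt_pow_left h4 two_ne_zero
    have h6 := (hH i hi).1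
    omega
  have hfac : ∀ i ∈ H, ((u i : ℕ) : ℝ) ^ (1 - 8 * δ) ≤ 1 + lam m (κ i) := by
    intro i hi
    refine le_trans ?_ (hk0 _ (hk i hi))
    have h3 : ((u i : ℕ) : ℝ) ≤ (4 : ℝ) ^ ((κ i : ℝ) + 1) := by
      have h4 : ((u i : ℕ) : ℝ) ≤ (4 : ℝ) ^ (κ i + 1) := by exact_mod_cast (hC i).le
      have h5 : (4 : ℝ) ^ ((κ i : ℝ) + 1) = (4 : ℝ) ^ (κ i + 1) := by
        rw [← Real.rpow_natCast]
        push_cast
        rfl
      rw [h5]
      exact h4
    refine (Real.rpow_le_rpow (Nat.cast_nonneg _) h3 (by linarith)).trans ?_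
    rw [← Real.rpow_mul (by norm_num), mul_comm]
  obtain ⟨U, hU⟩ : ∃ U : ℕ, U = ∏ i ∈ H, u i := ⟨_, rfl⟩
  have hU1 : 1 ≤ U := by
    rw [hU]
    exact Nat.one_le_iff_ne_zero.2 (Finset.prod_ne_zero_iff.2 fun i _ => by have := h2 i; omega)
  have hUp : (U : ℝ) ^ (1 - 8 * δ) ≤ (4 : ℝ) ^ ((1 + δ) * j) := by
    have h3 : (U : ℝ) ^ (1 - 8 * δ) ≤ ∏ i ∈ H, (1 + lam m (κ i)) := by
      rw [hU, Nat.cast_prod, ← Real.finset_prod_rpow _ _ fun i _ => Nat.cast_nonneg _]
      exact Finset.prod_le_prod (fun i _ => by positivity) hfac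
    have h4 : (4 : ℝ) ^ ((1 + δ) * j) = (4 : ℝ) ^ j * (4 : ℝ) ^ (δ * j) := by
      rw [add_mul, one_mul, Real.rpow_add (by norm_num), Real.rpow_natCast]
    rw [h4]
    refine h3.trans (hprod.trans ?_)
    have h5 : (0 : ℝ) < (4 : ℝ) ^ j := by positivity
    nlinarith
  have hU2 : (U : ℝ) ≤ (4 : ℝ) ^ ((1 + 10 * δ) * j) := by
    by_contra hlt
    have h3 := Real.rpow_lt_rpow (by positivity) (not_le.1 hlt) (by linarith : 0 < 1 - 8 * δ)
    rw [← Real.rpow_mul (by norm_num)] at h3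
    have h4 : (4 : ℝ) ^ ((1 + δ) * j) ≤ (4 : ℝ) ^ ((1 + 10 * δ) * j * (1 - 8 * δ)) := by
      refine Real.rpow_le_rpow_of_exponent_le (by norm_num) ?_
      have h5 : (1 + δ) ≤ (1 + 10 * δ) * (1 - 8 * δ) := by nlinarith
      have h6 := mul_le_mul_of_nonneg_right h5 (by linarith : (0 : ℝ) ≤ j)
      linarith
    linarith
  obtain ⟨y, hy⟩ : ∃ y : ℕ, y = ⌊(4 : ℝ) ^ ((1 + 10 * δ) * j)⌋₊ := ⟨_, rfl⟩
  have hUy : U ≤ y := by
    rw [hy]
    exact Nat.le_floor hU2
  have hcard : H.card ≤ t u y := hCNT u hmono h2 H y (by rw [← hU]; exact hUy)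
  have hy1 : (y : ℝ) ≤ (4 : ℝ) ^ ((1 + 10 * δ) * j) := by
    rw [hy]
    exact Nat.floor_le (by positivity)
  have hlogy : Real.log y ≤ (1 + 10 * δ) * j * Real.log 4 := by
    have h3 : (0 : ℝ) < y := by
      have : 1 ≤ y := hU1.trans hUy
      exact_mod_cast this
    have h4 := Real.log_le_log h3 hy1
    rwa [Real.log_rpow (by norm_num)] at h4
  have hx0 : 1 ≤ x := by
    by_contra h0
    have : x = 0 := by omega
    rw [this] at hx1
    have : 0 < 4 ^ j := by positivity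
    omega
  have hx0' : (0 : ℝ) < x := by exact_mod_cast hx0
  have hlogx : ((j : ℝ) - 1) * Real.log 4 ≤ Real.log x := by
    have h3 : (4 : ℝ) ^ j ≤ 4 * x := by exact_mod_cast hx1
    have h4 := Real.log_le_log (by positivity) h3
    rw [Real.log_pow, Real.log_mul (by norm_num) hx0'.ne'] at h4
    linarith
  have hlog : Real.log y ≤ (1 + 11 * δ) * Real.log x := by
    have h3 : 1 + 11 * δ ≤ δ * j := by
      rw [div_le_iff₀ hδ] at he3
      linarith
    have h4 : (1 + 10 * δ) * j ≤ (1 + 11 * δ) * ((j : ℝ) - 1) := by nlinarith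
    have h5 := mul_le_mul_of_nonneg_right h4 hL.le
    have h6 := mul_le_mul_of_nonneg_left hlogx (by linarith : 0 ≤ 1 + 11 * δ)
    linarith
  have hreg := hREG u hmono h2 x y (11 * δ) (by linarith) hx0 hlog
  have ht := he4 x hx1
  have hs : (1 : ℝ) ≤ Real.sqrt j := Real.one_le_sqrt.2 hj'
  have ht2 : (1 + 11 * δ) / (9 * δ) ≤ (t u x : ℝ) := by
    refine le_trans ?_ ht
    exact le_mul_of_one_le_right (by positivity) hs
  rw [div_le_iff₀ (by linarith)] at ht2
  have hcard' : (H.card : ℝ) ≤ (t u y : ℝ) := by exact_mod_cast hcard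
  nlinarith

end Pool.Agent.E8helper71.GS
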